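import Mathlib
import Pool.Agent.S07067

set_option autoImplicit false

/-!
# The order of magnitude of `ex_3(n, G⁺)` when the crosscut number of `G⁺` is three

For every finite graph `G` with `σ(G⁺) = 3` one has `ex_3(n, G⁺) = Θ(n²)`.
-/

namespace Pool.Agent.Results.MP_e3cf1a_co.QuadraticOrder

open Finset Asymptotics Filter

/-- A hypergraph on the vertex type `W`, given by its set of edges. -/
abbrev Hypergraph (W : Type) := Set (Set W)

/-- The 3-uniform expansion `G⁺` of a graph `G`: the vertices are the vertices of `G` together with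
one new vertex for every edge of `G`, and every edge `uv` of `G` gives the triple consisting of
`u`, `v` and the new vertex of `uv`. -/
def expansion {V : Type} (G : SimpleGraph V) : Hypergraph (V ⊕ G.edgeSet) :=
  {t | ∃ (u v : V) (h : G.Adj u v),
    t = {Sum.inl u, Sum.inl v, Sum.inr ⟨s(u, v), (SimpleGraph.mem_edgeSet G).mpr h⟩}}

/-- `X` is a crosscut of `F`: every edge of `F` has exactly one vertex in `X`. -/
def IsCrosscut {W : Type} (F : Hypergraph W) (X : Finset W) : Prop :=
  ∀ e ∈ F, ∃! x, x ∈ e ∧ x ∈ X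

/-- The crosscut number `σ(F)`: the least size of a crosscut of `F`. -/
noncomputable def crosscutNumber {W : Type} (F : Hypergraph W) : ℕ :=
  sInf {k | ∃ X : Finset W, IsCrosscut F X ∧ X.card = k}

/-- `H` is a 3-graph on the vertices `0, …, n - 1`: all its edges have three elements. -/
def IsThreeGraph {n : ℕ} (H : Finset (Finset (Fin n))) : Prop := ∀ e ∈ H, e.card = 3

/-- `H` contains a copy of `F`: an injective map of the vertices of `F` to the vertices of `H`
sends every edge of `F` onto an edge of `H`. -/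
def ContainsCopy {W : Type} {n : ℕ} (F : Hypergraph W) (H : Finset (Finset (Fin n))) : Prop :=
  ∃ φ : W → Fin n, Function.Injective φ ∧ ∀ e ∈ F, ∃ f ∈ H, (f : Set (Fin n)) = φ '' e

/-- The Turán number `ex_3(n, F)`: the largest number of edges of a 3-graph on `n` vertices that
contains no copy of `F`. -/
noncomputable def ex3 {W : Type} (n : ℕ) (F : Hypergraph W) : ℕ :=
  sSup {m | ∃ H : Finset (Finset (Fin n)), IsThreeGraph H ∧ ¬ ContainsCopy F H ∧ H.card = m}

/-! ### Elementary facts -/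

lemma bddAbove_ex3 {W : Type} (n : ℕ) (F : Hypergraph W) :
    BddAbove {m | ∃ H : Finset (Finset (Fin n)), IsThreeGraph H ∧ ¬ ContainsCopy F H ∧
      H.card = m} := by
  refine ⟨Fintype.card (Finset (Fin n)), ?_⟩
  rintro m ⟨H, -, -, rfl⟩
  exact Finset.card_le_univ H

lemma le_ex3 {W : Type} {n : ℕ} {F : Hypergraph W} {H : Finset (Finset (Fin n))}
    (h3 : IsThreeGraph H) (hF : ¬ ContainsCopy F H) : H.card ≤ ex3 n F :=
  le_csSup (bddAbove_ex3 n F) ⟨H, h3, hF, rfl⟩

lemma ex3_le {W : Type} {n : ℕ} {F : Hypergraph W} {B : ℝ} (hB : 0 ≤ B)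
    (h : ∀ H : Finset (Finset (Fin n)), IsThreeGraph H → ¬ ContainsCopy F H → (H.card : ℝ) ≤ B) :
    (ex3 n F : ℝ) ≤ B := by
  rcases Set.eq_empty_or_nonempty {m | ∃ H : Finset (Finset (Fin n)), IsThreeGraph H ∧
      ¬ ContainsCopy F H ∧ H.card = m} with h0 | h0
  · rw [ex3, h0]
    simpa using hB
  · obtain ⟨H, h1, h2, h3⟩ := Nat.sSup_mem h0 (bddAbove_ex3 n F)
    have := h H h1 h2
    rw [ex3, ← h3]
    exact this

/-- crosscuts of the expansion in the words of the frozen statement -/
lemma isCrosscut_expansion {V : Type} (G : SimpleGraph V) (X : Finset (V ⊕ G.edgeSet)) :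
    IsCrosscut (expansion G) X ↔ ∀ (u v : V) (h : G.Adj u v),
          ((Sum.inl u : V ⊕ G.edgeSet) ∈ X ∧ (Sum.inl v : V ⊕ G.edgeSet) ∉ X ∧
              (Sum.inr ⟨s(u, v), (SimpleGraph.mem_edgeSet G).mpr h⟩ : V ⊕ G.edgeSet) ∉ X) ∨
          ((Sum.inl u : V ⊕ G.edgeSet) ∉ X ∧ (Sum.inl v : V ⊕ G.edgeSet) ∈ X ∧
              (Sum.inr ⟨s(u, v), (SimpleGraph.mem_edgeSet G).mpr h⟩ : V ⊕ G.edgeSet) ∉ X) ∨
          ((Sum.inl u : V ⊕ G.edgeSet) ∉ X ∧ (Sum.inl v : V ⊕ G.edgeSet) ∉ X ∧
              (Sum.inr ⟨s(u, v), (SimpleGraph.mem_edgeSet G).mpr h⟩ : V ⊕ G.edgeSet) ∈ X) := by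
  constructor
  · intro hX u v h
    obtain ⟨x, ⟨hx1, hx2⟩, hx3⟩ := hX _ ⟨u, v, h, rfl⟩
    have huv : (Sum.inl u : V ⊕ G.edgeSet) ≠ Sum.inl v := by
      intro h'
      exact h.ne (Sum.inl.inj h')
    simp only [Set.mem_insert_iff, Set.mem_singleton_iff] at hx1
    rcases hx1 with rfl | rfl | rfl
    · left
      refine ⟨hx2, fun h' => ?_, fun h' => ?_⟩
      · exact huv (hx3 _ ⟨by simp, h'⟩).symm
      · have := hx3 _ ⟨by simp, h'⟩
        simp at this
    · right; left
      refine ⟨fun h' => ?_, hx2, fun h' => ?_⟩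
      · exact huv (hx3 _ ⟨by simp, h'⟩)
      · have := hx3 _ ⟨by simp, h'⟩
        simp at this
    · right; right
      refine ⟨fun h' => ?_, fun h' => ?_, hx2⟩
      · have := hx3 _ ⟨by simp, h'⟩
        simp at this
      · have := hx3 _ ⟨by simp, h'⟩
        simp at this
  · rintro hX e ⟨u, v, h, rfl⟩
    rcases hX u v h with ⟨h1, h2, h3⟩ | ⟨h1, h2, h3⟩ | ⟨h1, h2, h3⟩
    · refine ⟨Sum.inl u, ⟨by simp, h1⟩, ?_⟩
      rintro y ⟨hy1, hy2⟩
      simp only [Set.mem_insert_iff, Set.mem_singleton_iff] at hy1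
      rcases hy1 with rfl | rfl | rfl
      · rfl
      · exact absurd hy2 h2
      · exact absurd hy2 h3
    · refine ⟨Sum.inl v, ⟨by simp, h2⟩, ?_⟩
      rintro y ⟨hy1, hy2⟩
      simp only [Set.mem_insert_iff, Set.mem_singleton_iff] at hy1
      rcases hy1 with rfl | rfl | rfl
      · exact absurd hy2 h1
      · rfl
      · exact absurd hy2 h3
    · refine ⟨Sum.inr ⟨s(u, v), (SimpleGraph.mem_edgeSet G).mpr h⟩, ⟨by simp, h3⟩, ?_⟩
      rintro y ⟨hy1, hy2⟩
      simp only [Set.mem_insert_iff, Set.mem_singleton_iff] at hy1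
      rcases hy1 with rfl | rfl | rfl
      · exact absurd hy2 h1
      · exact absurd hy2 h2
      · rfl

/-! ### The upper bound -/

lemma upper {V : Type} [Finite V] (G : SimpleGraph V)
    (hσ : crosscutNumber (expansion G) = 3) :
    ∃ C : ℝ, 0 ≤ C ∧ ∀ n : ℕ, (ex3 n (expansion G) : ℝ) ≤ C * (n : ℝ) ^ 2 := by
  classical
  have := Fintype.ofFinite V
  have hmem : (3 : ℕ) ∈ {k | ∃ X : Finset (V ⊕ G.edgeSet), IsCrosscut (expansion G) X ∧
      X.card = k} := by
    rw [← hσ]
    apply Nat.sInf_mem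
    by_contra hne
    rw [Set.not_nonempty_iff_eq_empty] at hne
    rw [crosscutNumber, hne] at hσ
    simp at hσ
  obtain ⟨X, hX, hX3⟩ := hmem
  obtain ⟨C, hC⟩ := Pool.Agent.S07067.result V G
    ⟨⟨X, hX3, (isCrosscut_expansion G X).mp hX⟩, fun Y hY => by
      rw [← hσ]
      exact Nat.sInf_le ⟨Y, (isCrosscut_expansion G Y).mpr hY, rfl⟩⟩
  refine ⟨max C 0, le_max_right _ _, fun n => ?_⟩
  refine ex3_le (by positivity) fun H h3 hF => ?_
  refine (hC n H h3 ?_).trans ?_
  · rintro ⟨f, hf, g, hg, hgf, hH⟩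
    apply hF
    refine ⟨Sum.elim f g, ?_, ?_⟩
    · rintro (x | x) (y | y) hxy
      · exact congrArg _ (hf hxy)
      · exact absurd hxy.symm (hgf y x)
      · exact absurd hxy (hgf x y)
      · exact congrArg _ (hg hxy)
    · rintro e ⟨u, v, h, rfl⟩
      refine ⟨_, hH u v h, ?_⟩
      simp [Set.image_insert_eq]
  · exact mul_le_mul_of_nonneg_right (le_max_left _ _) (by positivity)

/-! ### The lower bound -/

lemma lower {W : Type} (F : Hypergraph W) (hσ : crosscutNumber F = 3) (n : ℕ) :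
    2 * n.choose 2 ≤ ex3 (n + 2) F := by
  classical
  set S : Finset (Fin (n + 2)) := {0, 1} with hS
  have h01 : (0 : Fin (n + 2)) ≠ 1 := by
    intro h
    have := congrArg Fin.val h
    simp at this
  have hScard : S.card = 2 := by rw [hS, Finset.card_pair h01]
  set H : Finset (Finset (Fin (n + 2))) :=
    ((univ : Finset (Fin (n + 2))).powersetCard 3).filter (fun e => (e ∩ S).card = 1) with hH
  have h3 : IsThreeGraph H := by
    intro e he
    rw [hH, mem_filter, mem_powersetCard] at he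
    exact he.1.2
  have hcop : ¬ ContainsCopy F H := by
    rintro ⟨φ, hφ, hφH⟩
    have hX : IsCrosscut F (S.preimage φ hφ.injOn) := by
      intro e he
      obtain ⟨f, hf, hfe⟩ := hφH e he
      rw [hH, mem_filter, card_eq_one] at hf
      obtain ⟨a, ha⟩ := hf.2
      have ha1 : a ∈ f ∩ S := by rw [ha]; simp
      rw [mem_inter] at ha1
      have ha2 : a ∈ φ '' e := by rw [← hfe]; exact_mod_cast ha1.1
      obtain ⟨x, hx, rfl⟩ := ha2
      refine ⟨x, ⟨hx, by simpa using ha1.2⟩, ?_⟩
      rintro y ⟨hy1, hy2⟩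
      apply hφ
      have : φ y ∈ f ∩ S := by
        rw [mem_inter]
        refine ⟨?_, by simpa using hy2⟩
        have : φ y ∈ (f : Set (Fin (n + 2))) := by rw [hfe]; exact ⟨y, hy1, rfl⟩
        exact_mod_cast this
      rw [ha] at this
      simpa using this
    have h1 : crosscutNumber F ≤ (S.preimage φ hφ.injOn).card := Nat.sInf_le ⟨_, hX, rfl⟩
    have h2 : (S.preimage φ hφ.injOn).card ≤ S.card := by
      rw [← Finset.card_image_of_injective _ hφ]
      apply card_le_card
      intro z hz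
      rw [mem_image] at hz
      obtain ⟨w, hw, rfl⟩ := hz
      simpa using hw
    omega
  refine le_trans ?_ (le_ex3 h3 hcop)
  -- count the triples
  have hcount : (S ×ˢ (univ \ S).powersetCard 2).card = 2 * n.choose 2 := by
    rw [card_product, hScard, card_powersetCard, card_sdiff_of_subset (subset_univ _), hScard]
    simp
  rw [← hcount]
  refine card_le_card_of_injOn (fun p => insert p.1 p.2) ?_ ?_
  · rintro ⟨s, p⟩ hp
    rw [mem_coe, mem_product, mem_powersetCard] at hp
    obtain ⟨hs, hpS, hp2⟩ := hp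
    have hsp : s ∉ p := fun h => (mem_sdiff.mp (hpS h)).2 hs
    rw [mem_coe, hH, mem_filter, mem_powersetCard]
    refine ⟨⟨subset_univ _, ?_⟩, ?_⟩
    · simp only
      rw [card_insert_of_notMem hsp, hp2]
    · rw [card_eq_one]
      refine ⟨s, ?_⟩
      ext x
      simp only [mem_inter, mem_insert, mem_singleton]
      constructor
      · rintro ⟨h1 | h1, h2⟩
        · exact h1
        · exact absurd h2 (mem_sdiff.mp (hpS h1)).2
      · rintro rfl
        exact ⟨Or.inl rfl, hs⟩
  · rintro ⟨s, p⟩ hp ⟨t, q⟩ hq hpq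
    rw [mem_coe, mem_product, mem_powersetCard] at hp hq
    obtain ⟨hs, hpS, -⟩ := hp
    obtain ⟨ht, hqS, -⟩ := hq
    simp only at hpq hs ht hpS hqS
    have hst : s = t := by
      have h1 : s ∈ insert t q := by rw [← hpq]; exact mem_insert_self _ _
      rw [mem_insert] at h1
      rcases h1 with h1 | h1
      · exact h1
      · exact absurd hs (mem_sdiff.mp (hqS h1)).2
    subst hst
    have hsp : s ∉ p := fun h => (mem_sdiff.mp (hpS h)).2 hs
    have hsq : s ∉ q := fun h => (mem_sdiff.mp (hqS h)).2 hs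
    have : p = q := by
      rw [← erase_insert hsp, ← erase_insert hsq, hpq]
    rw [this]

/-- **Main theorem.** For every finite graph `G` whose expansion has crosscut number three,
`ex_3(n, G⁺)` has order of magnitude `n²`. -/
theorem result {V : Type} [Finite V] (G : SimpleGraph V)
    (hσ : crosscutNumber (expansion G) = 3) :
    (fun n : ℕ => (ex3 n (expansion G) : ℝ)) =Θ[atTop] (fun n : ℕ => (n : ℝ) ^ 2) := by
  constructor
  · obtain ⟨C, -, hC⟩ := upper G hσ
    refine IsBigO.of_bound C (Eventually.of_forall fun n => ?_)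
    rw [Real.norm_of_nonneg (by positivity), Real.norm_of_nonneg (by positivity)]
    exact hC n
  · refine IsBigO.of_bound 4 ?_
    filter_upwards [eventually_ge_atTop 10] with n hn
    rw [Real.norm_of_nonneg (by positivity), Real.norm_of_nonneg (by positivity)]
    obtain ⟨m, rfl⟩ : ∃ m, n = m + 2 := ⟨n - 2, by omega⟩
    have h1 := lower (expansion G) hσ m
    have h2 : (2 : ℝ) * (m.choose 2 : ℝ) ≤ (ex3 (m + 2) (expansion G) : ℝ) := by exact_mod_cast h1
    rw [Nat.cast_choose_two] at h2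
    have h3 : (8 : ℝ) ≤ m := by
      have : 8 ≤ m := by omega
      exact_mod_cast this
    push_cast
    nlinarith

end Pool.Agent.Results.MP_e3cf1a_co.QuadraticOrder
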